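import Mathlib

set_option autoImplicit false
open scoped Pointwise

namespace Pool.Agent.H.MP_bb8083_al

variable {G : Type} [Group G]

theorem geo (B : Set G) : ∀ (L : ℕ) (h : G), h ∈ B ^ L →
    ∃ P : ℕ → G, P 0 = 1 ∧ P L = h ∧ ∀ s, s < L → (P s)⁻¹ * P (s + 1) ∈ B := by
  intro L
  induction L with
  | zero =>
    intro h hh
    rw [pow_zero, Set.mem_one] at hh
    exact ⟨fun _ => 1, rfl, hh.symm, fun s hs => absurd hs (Nat.not_lt_zero _)⟩
  | succ L ih =>
    intro h hh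
    rw [pow_succ] at hh
    obtain ⟨a, ha, b, hb, rfl⟩ := hh
    obtain ⟨P, h0, hL, hP⟩ := ih a ha
    refine ⟨fun s => if s ≤ L then P s else a * b, by simp [h0], by simp, fun s hs => ?_⟩
    by_cases h1 : s + 1 ≤ L
    · simp only [if_pos h1, if_pos (show s ≤ L by omega)]
      exact hP s (by omega)
    · have : s = L := by omega
      subst this
      simp only [if_neg h1, if_pos (le_refl s), hL]
      simpa using hb

theorem geo2 (B : Set G) (L : ℕ) (P : ℕ → G) (hP : ∀ s, s < L → (P s)⁻¹ * P (s + 1) ∈ B)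
    (s : ℕ) : ∀ d, s + d ≤ L → (P s)⁻¹ * P (s + d) ∈ B ^ d := by
  intro d
  induction d with
  | zero => intro _; simp
  | succ d ih =>
    intro h
    rw [pow_succ]
    refine ⟨_, ih (by omega), _, hP (s + d) (by omega), ?_⟩
    simp [add_assoc]

theorem inv_mem_pow {B : Set G} (hB : B⁻¹ = B) (m : ℕ) {x : G} (hx : x ∈ B ^ m) :
    x⁻¹ ∈ B ^ m := by
  rw [← hB, inv_pow]
  simpa using hx

theorem far (B : Set G) (h1 : (1 : G) ∈ B) (hB : B⁻¹ = B) (N : ℕ) (h : G) (hh : h ∈ B ^ (N + 1))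
    (hn : h ∉ B ^ N) : ∃ y : ℕ → G, ∀ s t m, s ≤ N + 1 → t ≤ N + 1 → (s + m < t ∨ t + m < s) →
      y s * (y t)⁻¹ ∉ B ^ m := by
  obtain ⟨P, h0, hL, hP⟩ := geo B (N + 1) h hh
  have key : ∀ s t m, t ≤ N + 1 → s + m < t → (P s)⁻¹ * P t ∉ B ^ m := by
    intro s t m ht hst hmem
    apply hn
    have a1 := geo2 B (N + 1) P hP 0 s (by omega)
    have a2 := geo2 B (N + 1) P hP t (N + 1 - t) (by omega)
    rw [h0, zero_add, inv_one, one_mul] at a1
    rw [show t + (N + 1 - t) = N + 1 by omega, hL] at a2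
    have a3 : h ∈ B ^ (s + m + (N + 1 - t)) := by
      rw [pow_add, pow_add]
      refine ⟨_, ⟨_, a1, _, hmem, rfl⟩, _, a2, ?_⟩
      simp
    exact Set.pow_right_monotone h1 (show s + m + (N + 1 - t) ≤ N by omega) a3
  refine ⟨fun s => (P s)⁻¹, fun s t m hs ht hst hmem => ?_⟩
  rcases hst with hst | hst
  · exact key s t m ht hst (by simpa using hmem)
  · exact key t s m hs hst (by simpa using inv_mem_pow hB m hmem)

theorem fin (B : Set G) (h1 : (1 : G) ∈ B) (hB : B⁻¹ = B) (n N r s c : ℕ) (pos : Fin n → ℕ)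
    (hc : c ≤ N + 1) (hpos : ∀ j, pos j ≤ N + 1) (hr : ∀ j, pos j + r < c ∨ c + r < pos j)
    (hs : ∀ j k, j ≠ k → pos j + s < pos k ∨ pos k + s < pos j)
    (K : ∀ x : Fin n → G, (∀ j, x j ∉ B ^ r) → ∃ j k, j ≠ k ∧ x j * (x k)⁻¹ ∈ B ^ s) :
    ∃ H : Subgroup G, B ^ N = (H : Set G) ∧ H.index ≠ 0 ∧ H.index ≤ n := by
  have hsub : ∀ m, B ^ m ⊆ (Subgroup.closure B : Set G) := by
    intro m
    induction m with
    | zero => intro x hx; rw [pow_zero, Set.mem_one] at hx; subst hx; exact one_mem _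
    | succ m ih =>
      rw [pow_succ]
      rintro _ ⟨a, ha, b, hb, rfl⟩
      exact mul_mem (ih ha) (Subgroup.subset_closure hb)
  have hstep : B ^ (N + 1) ⊆ B ^ N := by
    intro h hh
    by_contra hn
    obtain ⟨y, hy⟩ := far B h1 hB N h hh hn
    obtain ⟨j, k, hjk, hm⟩ := K (fun j => y (pos j) * (y c)⁻¹)
      (fun j => hy _ _ _ (hpos j) hc (hr j))
    refine hy (pos j) (pos k) s (hpos j) (hpos k) (hs j k hjk) ?_
    simpa [mul_assoc] using hm
  have hall : ∀ m, B ^ m ⊆ B ^ N := by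
    intro m
    induction m with
    | zero => exact Set.pow_right_monotone h1 (Nat.zero_le N)
    | succ m ih =>
      refine subset_trans ?_ hstep
      rw [pow_succ, pow_succ]
      exact Set.mul_subset_mul_right ih
  refine ⟨Subgroup.closure B, Set.Subset.antisymm (hsub N) fun x hx => ?_, ?_⟩
  · have : ∃ m, x ∈ B ^ m := by
      induction hx using Subgroup.closure_induction with
      | mem x hx => exact ⟨1, by simpa using hx⟩
      | one => exact ⟨0, by simp⟩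
      | mul x y _ _ hx hy =>
        obtain ⟨a, ha⟩ := hx
        obtain ⟨b, hb⟩ := hy
        exact ⟨a + b, by rw [pow_add]; exact ⟨_, ha, _, hb, rfl⟩⟩
      | inv x _ hx =>
        obtain ⟨a, ha⟩ := hx
        exact ⟨a, inv_mem_pow hB a ha⟩
    obtain ⟨m, hm⟩ := this
    exact hall m hm
  · by_contra hcon
    have hemb : Nonempty (Fin (n + 1) ↪ G ⧸ Subgroup.closure B) := by
      by_cases hfin : Finite (G ⧸ Subgroup.closure B)
      · have := Fintype.ofFinite (G ⧸ Subgroup.closure B)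
        apply Function.Embedding.nonempty_of_card_le
        rw [Fintype.card_fin, ← Nat.card_eq_fintype_card]
        have h0 : (Subgroup.closure B).index ≠ 0 := Nat.card_pos.ne'
        have : ¬ (Subgroup.closure B).index ≤ n := fun h => hcon ⟨h0, h⟩
        exact Nat.succ_le_of_lt (not_le.1 this)
      · have : Infinite (G ⧸ Subgroup.closure B) := not_finite_iff_infinite.1 hfin
        exact ⟨Fin.valEmbedding.trans (Infinite.natEmbedding _)⟩
    obtain ⟨e⟩ := hemb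
    have hne : ∀ a b, a ≠ b → ((e a).out)⁻¹ * (e b).out ∉ Subgroup.closure B := by
      intro a b hab hm
      apply hab
      apply e.injective
      rw [← QuotientGroup.out_eq' (e a), ← QuotientGroup.out_eq' (e b)]
      exact QuotientGroup.eq.2 hm
    obtain ⟨j, k, hjk, hm⟩ := K (fun j => ((e j.succ).out)⁻¹ * (e 0).out)
      (fun j hj => hne _ _ (Fin.succ_ne_zero j) (hsub r hj))
    refine hne j.succ k.succ (fun h => hjk (Fin.succ_injective _ h)) (hsub s ?_)
    simpa [mul_assoc] using hm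

variable {n : ℕ} (A : Fin n → Set G)

def I (S : Finset (Fin n)) (X : Set G) : Prop :=
  ∃ T : Finset (Fin n × G), (∀ t ∈ T, t.1 ∈ S) ∧ ∀ x ∈ X, ∃ t ∈ T, x * t.2 ∈ A t.1

variable {A}

theorem I.mono {S : Finset (Fin n)} {X Y : Set G} (h : I A S Y) (hXY : X ⊆ Y) : I A S X := by
  obtain ⟨T, h1, h2⟩ := h
  exact ⟨T, h1, fun x hx => h2 x (hXY hx)⟩

theorem I.union {S : Finset (Fin n)} {X Y : Set G} (hX : I A S X) (hY : I A S Y) :
    I A S (X ∪ Y) := by
  classical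
  obtain ⟨T, h1, h2⟩ := hX
  obtain ⟨T', h1', h2'⟩ := hY
  refine ⟨T ∪ T', fun t ht => (Finset.mem_union.1 ht).elim (h1 t) (h1' t), fun x hx => ?_⟩
  rcases hx with hx | hx
  · obtain ⟨t, ht, h⟩ := h2 x hx
    exact ⟨t, Finset.mem_union_left _ ht, h⟩
  · obtain ⟨t, ht, h⟩ := h2' x hx
    exact ⟨t, Finset.mem_union_right _ ht, h⟩

theorem I.shift {S : Finset (Fin n)} {X : Set G} (hX : I A S X) (g : G) :
    I A S {x | x * g ∈ X} := by
  classical
  obtain ⟨T, h1, h2⟩ := hX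
  refine ⟨T.image fun t => (t.1, g * t.2), fun t ht => ?_, fun x hx => ?_⟩
  · obtain ⟨u, hu, rfl⟩ := Finset.mem_image.1 ht
    exact h1 u hu
  · obtain ⟨t, ht, h⟩ := h2 _ hx
    exact ⟨_, Finset.mem_image_of_mem _ ht, by simpa [mul_assoc] using h⟩

def Cov (A : Fin n → Set G) (S R : Finset (Fin n)) (U : Finset (Set G)) : Prop :=
  (∀ X ∈ U, ∀ i ∈ R, ∀ u ∈ X, ∀ v ∈ X, u * v⁻¹ ∈ A i * (A i)⁻¹) ∧ I A S {x | ∀ X ∈ U, x ∉ X}

theorem cov_exists (S : Finset (Fin n)) (R : Finset (Fin n))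
    (hR : ∀ i ∈ R, I A (insert i S) Set.univ) : ∃ U, Cov A S R U := by
  classical
  induction R using Finset.induction_on with
  | empty => exact ⟨{Set.univ}, by simp, ∅, by simp, by simp⟩
  | insert i R _ ih =>
    obtain ⟨U, hU1, hU2⟩ := ih fun j hj => hR j (Finset.mem_insert_of_mem hj)
    obtain ⟨T, hT1, hT2⟩ := hR i (Finset.mem_insert_self _ _)
    refine ⟨(U ×ˢ T).image fun p => p.1 ∩ {x | x * p.2.2 ∈ A i}, ?_, ?_⟩
    · intro X hX j hj u hu v hv
      obtain ⟨p, hp, rfl⟩ := Finset.mem_image.1 hX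
      rcases Finset.mem_insert.1 hj with rfl | hj
      · exact ⟨_, hu.2, (v * p.2.2)⁻¹, by simpa using hv.2, by simp [mul_assoc]⟩
      · exact hU1 _ (Finset.mem_product.1 hp).1 j hj u hu.1 v hv.1
    · have h2 : I A S {x | ∃ t ∈ T, t.1 ∈ S ∧ x * t.2 ∈ A t.1} :=
        ⟨T.filter fun t => t.1 ∈ S, fun t ht => (Finset.mem_filter.1 ht).2,
          fun x ⟨t, ht, h1, h2⟩ => ⟨t, Finset.mem_filter.2 ⟨ht, h1⟩, h2⟩⟩
      refine (hU2.union h2).mono fun x hx => ?_
      by_cases hxU : ∀ X ∈ U, x ∉ X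
      · exact Or.inl hxU
      · right
        push Not at hxU
        obtain ⟨X, hX, hxX⟩ := hxU
        obtain ⟨t, ht, h⟩ := hT2 x trivial
        rcases Finset.mem_insert.1 (hT1 t ht) with hi | hi
        · exfalso
          refine hx _ (Finset.mem_image_of_mem _ (Finset.mem_product.2 ⟨hX, ht⟩ :
            (X, t) ∈ U ×ˢ T)) ⟨hxX, ?_⟩
          rw [← hi]; exact h
        · exact ⟨t, ht, hi, h⟩

theorem key (hA : ∀ g, ∃ i, g ∈ A i) : ∃ i, (A i).Nonempty ∧ ∀ x : Fin n → G,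
    (∀ j, x j ∉ (A i * (A i)⁻¹) ^ 4) →
      ∃ j k, j ≠ k ∧ x j * (x k)⁻¹ ∈ (A i * (A i)⁻¹) ^ 5 := by
  classical
  obtain ⟨S, hS, hmax⟩ := Finset.exists_max_image
    (Finset.univ.filter fun S : Finset (Fin n) => ¬ I A S Set.univ) Finset.card
    ⟨∅, Finset.mem_filter.2 ⟨Finset.mem_univ _, fun ⟨T, h1, h2⟩ => by
      obtain ⟨t, ht, -⟩ := h2 1 trivial
      simpa using h1 t ht⟩⟩
  have hS' : ¬ I A S Set.univ := (Finset.mem_filter.1 hS).2
  have hR : ∀ i ∈ Sᶜ, I A (insert i S) Set.univ := by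
    intro i hi
    by_contra h
    have := hmax (insert i S) (Finset.mem_filter.2 ⟨Finset.mem_univ _, h⟩)
    rw [Finset.card_insert_of_notMem (Finset.mem_compl.1 hi)] at this
    omega
  have hex : ∃ p, ∃ U, Cov A S Sᶜ U ∧ U.card = p := by
    obtain ⟨U, hU⟩ := cov_exists S Sᶜ hR
    exact ⟨_, U, hU, rfl⟩
  obtain ⟨U, hU, hUp⟩ := Nat.find_spec hex
  have hmin : ∀ V, Cov A S Sᶜ V → U.card ≤ V.card := fun V hV =>
    hUp ▸ Nat.find_min' hex ⟨V, hV, rfl⟩
  have hUne : U.Nonempty := by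
    rw [Finset.nonempty_iff_ne_empty]
    rintro rfl
    exact hS' (hU.2.mono fun x _ => by simp)
  have hmeet : ∀ X ∈ U, ∃ i ∈ Sᶜ, (X ∩ A i).Nonempty := by
    intro X hX
    by_contra hcon
    push Not at hcon
    have hXI : I A S X := by
      refine ⟨S.image fun i => (i, 1), fun t ht => ?_, fun x hx => ?_⟩
      · obtain ⟨u, hu, rfl⟩ := Finset.mem_image.1 ht
        exact hu
      · obtain ⟨i, hi⟩ := hA x
        have hiS : i ∈ S := by
          by_contra h
          have : x ∈ X ∩ A i := ⟨hx, hi⟩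
          rw [hcon i (Finset.mem_compl.2 h)] at this
          exact this
        exact ⟨_, Finset.mem_image_of_mem _ hiS, by simpa using hi⟩
    have := hmin (U.erase X) ⟨fun Y hY => hU.1 Y (Finset.mem_of_mem_erase hY),
      (hU.2.union hXI).mono fun x hx => by
        by_cases hxX : x ∈ X
        · exact Or.inr hxX
        · left
          intro Y hY hxY
          exact hx Y (Finset.mem_erase.2 ⟨fun h => hxX (h ▸ hxY), hY⟩) hxY⟩
    rw [Finset.card_erase_of_mem hX] at this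
    have := Finset.card_pos.2 hUne
    omega
  let M : Fin n → Finset (Set G) := fun i => U.filter fun X => (X ∩ A i).Nonempty
  obtain ⟨X0, hX0⟩ := hUne
  obtain ⟨i0, hi0, -⟩ := hmeet X0 hX0
  obtain ⟨i, hi, himax⟩ := Finset.exists_max_image Sᶜ (fun i => (M i).card) ⟨i0, hi0⟩
  have hcount : U.card ≤ n * (M i).card := by
    calc U.card ≤ (Sᶜ.biUnion M).card := Finset.card_le_card fun X hX => by
          obtain ⟨j, hj, h⟩ := hmeet X hX
          exact Finset.mem_biUnion.2 ⟨j, hj, Finset.mem_filter.2 ⟨hX, h⟩⟩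
      _ ≤ Sᶜ.card * (M i).card := Finset.card_biUnion_le_card_mul _ _ _ himax
      _ ≤ n * (M i).card := Nat.mul_le_mul_right _ (by simpa using Finset.card_le_univ Sᶜ)
  have hMpos : 0 < (M i).card := by
    have := Finset.card_pos.2 ⟨X0, hX0⟩
    by_contra h
    have h0 : (M i).card = 0 := by omega
    rw [h0] at hcount
    omega
  obtain ⟨X1, hX1⟩ := Finset.card_pos.1 hMpos
  obtain ⟨a0, -, ha0⟩ := (Finset.mem_filter.1 hX1).2
  refine ⟨i, ⟨a0, ha0⟩, fun x hx => ?_⟩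
  let Nb : G → Finset (Set G) := fun g => U.filter fun Y => ∃ X ∈ M i, ∃ u ∈ X, u * g ∈ Y
  have hNb : ∀ g, (M i).card ≤ (Nb g).card := by
    intro g
    have := hmin (((U \ M i).image fun X => {x | x * g⁻¹ ∈ X}) ∪ Nb g) ⟨?_, ?_⟩
    · have h1 := Finset.card_union_le ((U \ M i).image fun X => {x | x * g⁻¹ ∈ X}) (Nb g)
      have h2 : ((U \ M i).image fun X => {x | x * g⁻¹ ∈ X}).card ≤ (U \ M i).card :=
        Finset.card_image_le
      have h3 : (U \ M i).card + (M i).card = U.card :=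
        Finset.card_sdiff_add_card_eq_card (Finset.filter_subset _ _)
      omega
    · intro Y hY j hj u hu v hv
      rcases Finset.mem_union.1 hY with hY | hY
      · obtain ⟨X, hX, rfl⟩ := Finset.mem_image.1 hY
        have := hU.1 X (Finset.mem_sdiff.1 hX).1 j hj _ hu _ hv
        simpa [mul_assoc] using this
      · exact hU.1 Y (Finset.mem_filter.1 hY).1 j hj u hu v hv
    · refine (hU.2.union (hU.2.shift g⁻¹)).mono fun z hz => ?_
      by_cases h1 : ∀ X ∈ U, z ∉ X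
      · exact Or.inl h1
      · right
        push Not at h1
        obtain ⟨Y, hY, hzY⟩ := h1
        intro X hX hzX
        by_cases hXM : X ∈ M i
        · exact hz Y (Finset.mem_union_right _ (Finset.mem_filter.2
            ⟨hY, X, hXM, _, hzX, by simpa using hzY⟩)) hzY
        · exact hz _ (Finset.mem_union_left _ (Finset.mem_image_of_mem _
            (Finset.mem_sdiff.2 ⟨hX, hXM⟩))) hzX
  have hAA : ∀ a ∈ A i, ∀ b ∈ A i, a * b⁻¹ ∈ A i * (A i)⁻¹ := fun a ha b hb =>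
    ⟨a, ha, b⁻¹, by simpa using hb, rfl⟩
  by_contra hcon
  push Not at hcon
  let g : Fin n → G := fun j => a0⁻¹ * x j * a0
  have hd1 : ∀ j, Disjoint (M i) (Nb (g j)) := by
    intro j
    rw [Finset.disjoint_left]
    intro Y hY hY'
    obtain ⟨hYU, a', ha'Y, ha'⟩ := Finset.mem_filter.1 hY
    obtain ⟨-, X, hX, u, hu, hw⟩ := Finset.mem_filter.1 hY'
    obtain ⟨hXU, a, haX, ha⟩ := Finset.mem_filter.1 hX
    apply hx j
    have e : x j = (a0 * a⁻¹) * (a * u⁻¹) * (u * g j * a'⁻¹) * (a' * a0⁻¹) := by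
      simp only [g]; group
    rw [e, pow_succ, pow_succ, pow_succ, pow_one]
    exact Set.mul_mem_mul (Set.mul_mem_mul (Set.mul_mem_mul (hAA _ ha0 _ ha)
      (hU.1 X hXU i hi _ haX _ hu)) (hU.1 Y hYU i hi _ hw _ ha'Y)) (hAA _ ha' _ ha0)
  have hd2 : ∀ j k, j ≠ k → Disjoint (Nb (g j)) (Nb (g k)) := by
    intro j k hjk
    rw [Finset.disjoint_left]
    intro Y hY hY'
    obtain ⟨hYU, X, hX, u, hu, hw⟩ := Finset.mem_filter.1 hY
    obtain ⟨-, X', hX', v, hv, hw'⟩ := Finset.mem_filter.1 hY'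
    obtain ⟨hXU, a, haX, ha⟩ := Finset.mem_filter.1 hX
    obtain ⟨hXU', a', haX', ha'⟩ := Finset.mem_filter.1 hX'
    apply hcon j k hjk
    have e : x j * (x k)⁻¹ = (a0 * a⁻¹) * (a * u⁻¹) * (u * g j * (v * g k)⁻¹) * (v * a'⁻¹) *
        (a' * a0⁻¹) := by
      simp only [g]; group
    rw [e, pow_succ, pow_succ, pow_succ, pow_succ, pow_one]
    exact Set.mul_mem_mul (Set.mul_mem_mul (Set.mul_mem_mul (Set.mul_mem_mul (hAA _ ha0 _ ha)
      (hU.1 X hXU i hi _ haX _ hu)) (hU.1 Y hYU i hi _ hw _ hw'))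
      (hU.1 X' hXU' i hi _ hv _ haX')) (hAA _ ha' _ ha0)
  have c1 : (Finset.univ.biUnion fun j => Nb (g j)).card = ∑ j, (Nb (g j)).card :=
    Finset.card_biUnion fun j _ k _ hjk => hd2 j k hjk
  have c2 : n * (M i).card ≤ ∑ j, (Nb (g j)).card := by
    have := Finset.card_nsmul_le_sum Finset.univ (fun j => (Nb (g j)).card) (M i).card
      fun j _ => hNb _
    simpa using this
  have c3 : (M i ∪ Finset.univ.biUnion fun j => Nb (g j)).card ≤ U.card := by
    refine Finset.card_le_card (Finset.union_subset (Finset.filter_subset _ _) ?_)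
    exact Finset.biUnion_subset.2 fun j _ => Finset.filter_subset _ _
  rw [Finset.card_union_of_disjoint ((Finset.disjoint_biUnion_right _ _ _).2 fun j _ => hd1 j)]
    at c3
  omega

theorem key2 {A : Fin 2 → Set G} (hA : ∀ g, ∃ i, g ∈ A i) : ∃ i, (A i).Nonempty ∧
    ∀ x : Fin 2 → G, (∀ j, x j ∉ (A i * (A i)⁻¹) ^ 1) →
      ∃ j k, j ≠ k ∧ x j * (x k)⁻¹ ∈ (A i * (A i)⁻¹) ^ 2 := by
  by_cases h : ∀ y, y ∈ A 0 * (A 0)⁻¹
  · obtain ⟨a, ha, -⟩ := h 1
    exact ⟨0, ⟨a, ha⟩, fun x hx => absurd (by simpa using h (x 0)) (hx 0)⟩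
  · push Not at h
    obtain ⟨y, hy⟩ := h
    have h01 : ∀ z, z ∉ A 1 → z ∈ A 0 := by
      intro z hz
      obtain ⟨i, hi⟩ := hA z
      fin_cases i
      · exact hi
      · exact absurd hi hz
    have h1 : ∀ z, z ∉ A 1 → y * z ∈ A 1 := by
      intro z hz
      by_contra h2
      exact hy ⟨_, h01 _ h2, z⁻¹, by simpa using h01 _ hz, by simp⟩
    have hne : (A 1).Nonempty := by
      by_cases h : (1 : G) ∈ A 1
      · exact ⟨_, h⟩
      · exact ⟨_, h1 _ h⟩
    obtain ⟨a, ha⟩ := hne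
    refine ⟨1, ⟨a, ha⟩, fun x hx => ⟨0, 1, by decide, ?_⟩⟩
    have h2 : ∀ j, y * ((x j)⁻¹ * a) ∈ A 1 := by
      intro j
      apply h1
      intro h
      apply hx j
      rw [pow_one]
      exact ⟨a, ha, ((x j)⁻¹ * a)⁻¹, by simpa using h, by simp⟩
    have e : x 0 * (x 1)⁻¹ = (a * (y * ((x 0)⁻¹ * a))⁻¹) * ((y * ((x 1)⁻¹ * a)) * a⁻¹) := by
      group
    rw [e, pow_two]
    exact Set.mul_mem_mul ⟨a, ha, _, by simpa using h2 0, rfl⟩ ⟨_, h2 1, a⁻¹, by simpa using ha, rfl⟩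

theorem one_mem_B {X : Set G} (h : X.Nonempty) : (1 : G) ∈ X * X⁻¹ := by
  obtain ⟨a, ha⟩ := h
  exact ⟨a, ha, a⁻¹, by simpa using ha, by simp⟩

theorem pow_bd (m : ℕ) : 6 * (m + 3) ≤ 4 ^ (m + 2) + 3 := by
  induction m with
  | zero => norm_num
  | succ m ih => rw [show m + 1 + 2 = m + 2 + 1 by ring, pow_succ]; omega

theorem main (n : ℕ) (A : Fin n → Set G) (hA : ∀ g, ∃ i, g ∈ A i) :
    ∃ i : Fin n, ∃ H : Subgroup G,
      ((A i * (A i)⁻¹) ^ (4 ^ (n - 1)) : Set G) = (H : Set G) ∧ H.index ≠ 0 ∧ H.index ≤ n := by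
  match n, A, hA with
  | 0, A, hA => obtain ⟨i, -⟩ := hA 1; exact i.elim0
  | 1, A, hA =>
    have h : ∀ g, g ∈ A 0 := fun g => by
      obtain ⟨i, hi⟩ := hA g
      rwa [Subsingleton.elim i 0] at hi
    refine ⟨0, fin _ (one_mem_B ⟨1, h 1⟩) (by simp) 1 _ 1 0 2 (fun _ => 0) (by norm_num)
      (by simp) (by simp) (fun j k hjk => absurd (Subsingleton.elim j k) hjk) fun x hx => ?_⟩
    exact absurd (by rw [pow_one]; exact ⟨x 0, h _, 1, by simpa using h 1, by simp⟩) (hx 0)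
  | 2, A, hA =>
    obtain ⟨i, hi, K⟩ := key2 hA
    exact ⟨i, fin _ (one_mem_B hi) (by simp) 2 _ 1 2 2 (fun j => 4 * j.val) (by norm_num)
      (by decide) (by decide) (by decide) K⟩
  | m + 3, A, hA =>
    obtain ⟨i, hi, K⟩ := key hA
    have hb := pow_bd m
    refine ⟨i, fin _ (one_mem_B hi) (by simp) (m + 3) _ 4 5 5
      (fun j => if j.val = 0 then 0 else 4 + 6 * j.val) ?_ ?_ ?_ ?_ K⟩
    · rw [show m + 3 - 1 = m + 2 by omega]; omega
    · intro j
      have := j.2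
      rw [show m + 3 - 1 = m + 2 by omega]
      split_ifs <;> omega
    · intro j
      split_ifs <;> omega
    · intro j k hjk
      have : j.val ≠ k.val := fun h => hjk (Fin.ext h)
      split_ifs <;> omega

end Pool.Agent.H.MP_bb8083_al
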